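import Pool.Agent.Y347.CO.Lines
import Pool.Agent.Y347.CO.Sens
import Pool.Agent.Y220.CO.Tail

set_option autoImplicit false

/-!
# Circuits of constant depth that read words over an arbitrary alphabet
-/

namespace Pool.Agent.N381.AC

open Finset Function

/-- A circuit that reads a word `x` of length `n` over the alphabet `L`. `val v x` is the bit at the
node `v`. An element `(u, b)` of a set `J` of wires is a wire from the node `u`, and it is true if
the bit at `u` is `b` (so negations are free). Every node is a test of one letter (`x i ∈ S`), or a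
gate of one of the following kinds: an arbitrary gate with at most `w` wires (its value is a
function of the set of its true wires), an AND gate, an OR gate. The depth grows along the wires. -/
structure Circuit (w : ℕ) (L : Type) (n : ℕ) where
  Node : Type
  [finite : Finite Node]
  val : Node → (Fin n → L) → Bool
  depth : Node → ℕ
  rule : ∀ v : Node, (∃ (i : Fin n) (S : Set L), ∀ x, val v x = true ↔ x i ∈ S) ∨
    ∃ J : Finset (Node × Bool), (∀ u ∈ J, depth u.1 < depth v) ∧
      ((J.card ≤ w ∧ ∃ F : Finset (Node × Bool) → Bool,
          ∀ x, val v x = F (J.filter fun u => val u.1 x = u.2)) ∨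
        (∀ x, val v x = decide (∀ u ∈ J, val u.1 x = u.2)) ∨
        (∀ x, val v x = decide (∃ u ∈ J, val u.1 x = u.2)))

section sub
variable {w n : ℕ} {L : Type}

/-- the wires of the new circuit -/
def emb (N : Type) (n : ℕ) : N × Bool ↪ (Fin n ⊕ N) × Bool where
  toFun u := (Sum.inr u.1, u.2)
  inj' := by
    rintro ⟨a, b⟩ ⟨c, d⟩ h
    simp only [Prod.mk.injEq, Sum.inr.injEq] at h
    exact Prod.ext h.1 h.2

/-- values of the new circuit -/
def sval (C : Circuit w L n) (s : Fin n → Bool → L) (v : Fin n ⊕ C.Node) (b : Fin n → Bool) : Bool :=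
  match v with
  | .inl i => b i
  | .inr v => C.val v fun i => s i (b i)

/-- depths of the new circuit -/
def sdepth (C : Circuit w L n) (v : Fin n ⊕ C.Node) : ℕ :=
  match v with
  | .inl _ => 0
  | .inr v => C.depth v + 1

open Classical in
theorem srule (C : Circuit w L n) (hw : 1 ≤ w) (s : Fin n → Bool → L) (v : Fin n ⊕ C.Node) :
    v ∈ (∅ : Finset (Fin n ⊕ C.Node)) ∨ (∃ i, ∀ x, sval C s v x = x i) ∨
    ∃ J : Finset ((Fin n ⊕ C.Node) × Bool), (∀ u ∈ J, sdepth C u.1 < sdepth C v) ∧
      ((J.card ≤ w ∧ ∃ F : Finset ((Fin n ⊕ C.Node) × Bool) → Bool,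
          ∀ x, sval C s v x = F (J.filter fun u => sval C s u.1 x = u.2)) ∨
        (∀ x, sval C s v x = decide (∀ u ∈ J, sval C s u.1 x = u.2)) ∨
        (∀ x, sval C s v x = decide (∃ u ∈ J, sval C s u.1 x = u.2))) := by
  right
  cases v with
  | inl i => exact Or.inl ⟨i, fun x => rfl⟩
  | inr v =>
    right
    rcases C.rule v with ⟨i, S, hS⟩ | ⟨J, hJd, hJ⟩
    · refine ⟨{(Sum.inl i, true)}, ?_, Or.inl ⟨by simpa using hw, fun J' =>
        if (Sum.inl i, true) ∈ J' then decide (s i true ∈ S) else decide (s i false ∈ S), ?_⟩⟩
      · intro u hu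
        rw [mem_singleton] at hu
        subst hu
        exact Nat.succ_pos _
      · intro x
        have h1 : sval C s (Sum.inr v) x = decide (s i (x i) ∈ S) := by
          have := hS fun i => s i (x i)
          have e : sval C s (Sum.inr v) x = C.val v fun i => s i (x i) := rfl
          rw [e]
          by_cases h : s i (x i) ∈ S
          · rw [this.2 h, decide_eq_true h]
          · rw [decide_eq_false h]
            cases hv : C.val v fun i => s i (x i) with
            | true => exact absurd (this.1 hv) h
            | false => rfl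
        rw [h1]
        beta_reduce
        cases hx : x i with
        | true =>
          rw [if_pos]
          rw [mem_filter]
          exact ⟨mem_singleton_self _, hx⟩
        | false =>
          rw [if_neg]
          rw [mem_filter]
          rintro ⟨-, h⟩
          have h' : x i = true := h
          rw [hx] at h'
          cases h'
    · refine ⟨J.map (emb C.Node n), ?_, ?_⟩
      · intro u hu
        obtain ⟨u', hu', rfl⟩ := mem_map.1 hu
        exact Nat.succ_lt_succ (hJd u' hu')
      · rcases hJ with ⟨hc, F, hF⟩ | h | h
        · refine Or.inl ⟨by rwa [card_map], fun J' => F (J.filter fun u => emb C.Node n u ∈ J'), ?_⟩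
          intro x
          have e : sval C s (Sum.inr v) x = C.val v fun i => s i (x i) := rfl
          rw [e, hF]
          congr 1
          ext u
          rw [mem_filter, mem_filter, mem_filter]
          constructor
          · rintro ⟨h1, h2⟩
            exact ⟨h1, mem_map_of_mem _ h1, h2⟩
          · rintro ⟨h1, -, h2⟩
            exact ⟨h1, h2⟩
        · refine Or.inr (Or.inl fun x => ?_)
          have e : sval C s (Sum.inr v) x = C.val v fun i => s i (x i) := rfl
          rw [e, h]
          apply decide_eq_decide.2
          constructor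
          · intro h1 u hu
            obtain ⟨u', hu', rfl⟩ := mem_map.1 hu
            exact h1 u' hu'
          · intro h1 u hu
            exact h1 _ (mem_map_of_mem _ hu)
        · refine Or.inr (Or.inr fun x => ?_)
          have e : sval C s (Sum.inr v) x = C.val v fun i => s i (x i) := rfl
          rw [e, h]
          apply decide_eq_decide.2
          constructor
          · rintro ⟨u, hu, h1⟩
            exact ⟨_, mem_map_of_mem _ hu, h1⟩
          · rintro ⟨u, hu, h1⟩
            obtain ⟨u', hu', rfl⟩ := mem_map.1 hu
            exact ⟨u', hu', h1⟩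

/-- The Boolean circuit obtained by restricting the letters to two values. -/
noncomputable def Circuit.sub (C : Circuit w L n) (hw : 1 ≤ w) (s : Fin n → Bool → L) :
    Y603.MS.Circuit w n :=
  haveI := C.finite
  { Node := Fin n ⊕ C.Node
    val := sval C s
    depth := sdepth C
    leak := ∅
    rule := srule C hw s }

theorem sub_card (C : Circuit w L n) (hw : 1 ≤ w) (s : Fin n → Bool → L) :
    Nat.card (C.sub hw s).Node = n + Nat.card C.Node := by
  have := C.finite
  show Nat.card (Fin n ⊕ C.Node) = _
  rw [Nat.card_sum, Nat.card_eq_fintype_card, Fintype.card_fin]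

theorem sub_depth (C : Circuit w L n) (hw : 1 ≤ w) (s : Fin n → Bool → L) {d : ℕ}
    (hd : ∀ v, C.depth v ≤ d) (v : (C.sub hw s).Node) : (C.sub hw s).depth v ≤ d + 1 := by
  have h : ∀ v : Fin n ⊕ C.Node, sdepth C v ≤ d + 1 := by
    intro v
    cases v with
    | inl i => exact Nat.zero_le _
    | inr v => exact Nat.succ_le_succ (hd v)
  exact h v

/-- the output node -/
def subOut (C : Circuit w L n) (hw : 1 ≤ w) (s : Fin n → Bool → L) (o : C.Node) :
    (C.sub hw s).Node := (Sum.inr o : Fin n ⊕ C.Node)

theorem sub_val (C : Circuit w L n) (hw : 1 ≤ w) (s : Fin n → Bool → L) (o : C.Node)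
    (b : Fin n → Bool) : (C.sub hw s).val (subOut C hw s o) b = C.val o fun i => s i (b i) := rfl

theorem sub_leak (C : Circuit w L n) (hw : 1 ≤ w) (s : Fin n → Bool → L) :
    (C.sub hw s).leak = ∅ := rfl

end sub

end Pool.Agent.N381.AC
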