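import Pool.Agent.N381.AC.Circ

set_option autoImplicit false
set_option maxHeartbeats 400000

/-!
# Sets without patterns which are supports of polynomials in circuits
-/

namespace Pool.Agent.N381.AC

open Finset Function H568R2 Pool.Agent.TH163.AC3 Pool.Agent.Y603.MS Y347.CO

section functional
variable {n : ℕ} {K : Type} [Field K]

/-- the sign -/
def sgn (K : Type) [Field K] (ρ : Restr (Fin n)) (y : Fin n → ZMod 2) : K :=
  ∏ i ∈ freeS ρ, (if y i = 1 then (-1 : K) else 1)

theorem zflip : ∀ z : ZMod 2, z + 1 = 1 ↔ ¬ z = 1 := by decide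

theorem zflip_ne : ∀ z : ZMod 2, z + 1 ≠ z := by decide

theorem inC_flip {ρ : Restr (Fin n)} {i : Fin n} (hi : ρ i = none) (y : Fin n → ZMod 2) :
    InC ρ (bits2 (update y i (y i + 1))) ↔ InC ρ (bits2 y) := by
  constructor
  · intro h j b hj
    have hji : j ≠ i := by
      rintro rfl
      rw [hi] at hj
      cases hj
    have := h j b hj
    unfold bits2 at this ⊢
    rwa [update_of_ne hji] at this
  · intro h j b hj
    have hji : j ≠ i := by
      rintro rfl
      rw [hi] at hj
      cases hj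
    have := h j b hj
    unfold bits2 at this ⊢
    rwa [update_of_ne hji]

theorem sgn_flip {ρ : Restr (Fin n)} {i : Fin n} (hi : ρ i = none) (y : Fin n → ZMod 2) :
    sgn K ρ (update y i (y i + 1)) = - sgn K ρ y := by
  have him : i ∈ freeS ρ := mem_filter.2 ⟨mem_univ _, hi⟩
  unfold sgn
  rw [← mul_prod_erase _ _ him, ← mul_prod_erase (freeS ρ) (fun i => if y i = 1 then (-1 : K) else 1) him,
    update_self]
  have h1 : ∏ x ∈ (freeS ρ).erase i, (if update y i (y i + 1) x = 1 then (-1 : K) else 1) =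
      ∏ x ∈ (freeS ρ).erase i, (if y x = 1 then (-1 : K) else 1) := by
    apply prod_congr rfl
    intro x hx
    rw [update_of_ne (ne_of_mem_erase hx)]
  rw [h1]
  have h2 : (if y i + 1 = 1 then (-1 : K) else 1) = -(if y i = 1 then (-1 : K) else 1) := by
    by_cases h : y i = 1
    · rw [if_pos h, if_neg (fun h' => (zflip _).1 h' h), neg_neg]
    · rw [if_neg h, if_pos ((zflip _).2 h)]
  rw [h2, neg_mul]

/-- functions of low degree are orthogonal to the sign -/
theorem sgn_sum {ρ : Restr (Fin n)} {D : ℕ} (hD : D < fr ρ) {f : (Fin n → ZMod 2) → K}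
    (hf : f ∈ US K ρ D) : ∑ y, sgn K ρ y * f y = 0 := by
  classical
  unfold US at hf
  induction hf using Submodule.span_induction with
  | mem f hf =>
    obtain ⟨⟨s, h1, h2⟩, rfl⟩ := hf
    have hlt : s.card < (freeS ρ).card := lt_of_le_of_lt h2 hD
    obtain ⟨i, hi, his⟩ := Finset.exists_of_ssubset (Finset.ssubset_iff_subset_ne.2
      ⟨h1, fun h => by rw [h] at hlt; exact lt_irrefl _ hlt⟩)
    have hi' : ρ i = none := (mem_filter.1 hi).2
    refine sum_involution (fun y _ => update y i (y i + 1)) ?_ ?_ ?_ ?_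
    · intro y _
      rw [sgn_flip hi']
      have h3 : chi K ρ s (update y i (y i + 1)) = chi K ρ s y := by
        unfold chi
        by_cases hC : InC ρ (bits2 y)
        · rw [if_pos hC, if_pos ((inC_flip hi' y).2 hC)]
          apply prod_congr rfl
          intro j hj
          rw [update_of_ne]
          rintro rfl
          exact his hj
        · rw [if_neg hC, if_neg (fun h => hC ((inC_flip hi' y).1 h))]
      show sgn K ρ y * chi K ρ s y + -sgn K ρ y * chi K ρ s (update y i (y i + 1)) = 0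
      rw [h3]
      ring
    · intro y _ _ h
      have := congrFun h i
      rw [update_self] at this
      exact zflip_ne _ this
    · intro y _
      exact mem_univ _
    · intro y _
      funext j
      by_cases hj : j = i
      · subst hj
        rw [update_self, update_self]
        have : ∀ z : ZMod 2, z + 1 + 1 = z := by decide
        exact this _
      · rw [update_of_ne hj, update_of_ne hj]
  | zero => simp
  | add f g _ _ hf hg =>
    simp only [Pi.add_apply, mul_add, sum_add_distrib, hf, hg, add_zero]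
  | smul c f _ hf =>
    have : ∑ y, sgn K ρ y * (c • f) y = c * ∑ y, sgn K ρ y * f y := by
      rw [mul_sum]
      apply sum_congr rfl
      intro y _
      rw [Pi.smul_apply, smul_eq_mul]
      ring
    rw [this, hf, mul_zero]

theorem sgn_ne (ρ : Restr (Fin n)) (y : Fin n → ZMod 2) : sgn K ρ y ≠ 0 := by
  unfold sgn
  rw [prod_ne_zero_iff]
  intro i _
  split_ifs
  · exact neg_ne_zero.2 one_ne_zero
  · exact one_ne_zero

/-- products -/
theorem US_prodf (ρ : Restr (Fin n)) {D : ℕ} {ι : Type} (S : Finset ι)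
    (f : ι → (Fin n → ZMod 2) → K) (hf : ∀ j, (chi K ρ ∅ * f j) ∈ US K ρ D) :
    (chi K ρ ∅ * ∏ j ∈ S, f j) ∈ US K ρ (S.card * D) := by
  classical
  induction S using Finset.induction_on with
  | empty =>
    rw [prod_empty, mul_one, card_empty, zero_mul]
    exact chi_mem ρ (empty_subset _) (by simp)
  | insert i S hi ih =>
    rw [prod_insert hi, card_insert_of_notMem hi]
    have e : (chi K ρ ∅ * (f i * ∏ j ∈ S, f j)) =
        (chi K ρ ∅ * f i) * (chi K ρ ∅ * ∏ j ∈ S, f j) := by
      have h1 : chi K ρ ∅ * chi K ρ ∅ = chi K ρ ∅ := by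
        have := chi_chi (K := K) ρ ∅ ∅
        rwa [empty_union] at this
      calc chi K ρ ∅ * (f i * ∏ j ∈ S, f j) = (chi K ρ ∅ * chi K ρ ∅) * (f i * ∏ j ∈ S, f j) := by
            rw [h1]
        _ = _ := by ring
    rw [e, show (S.card + 1) * D = D + S.card * D by ring]
    exact US_mulf ρ (hf i) ih

theorem chi_one {ρ : Restr (Fin n)} {y : Fin n → ZMod 2} (h : InC ρ (bits2 y)) :
    chi K ρ ∅ y = 1 := by
  unfold chi
  rw [if_pos h, prod_empty]

theorem chi_zero {ρ : Restr (Fin n)} {y : Fin n → ZMod 2} (h : ¬ InC ρ (bits2 y)) :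
    chi K ρ ∅ y = 0 := by
  unfold chi
  rw [if_neg h]

/-- the base point of the cube -/
def basePt (ρ : Restr (Fin n)) : Fin n → ZMod 2 := fun i => if ρ i = some true then 1 else 0

theorem basePt_in (ρ : Restr (Fin n)) : InC ρ (bits2 (basePt ρ)) := by
  intro i b hi
  unfold bits2 basePt
  rw [hi]
  cases b <;> simp

/-- a product of functions of low degree which vanishes on the cube except at the base point -/
theorem point {ρ : Restr (Fin n)} {D : ℕ} {ι : Type} (S : Finset ι)
    (f : ι → (Fin n → ZMod 2) → K) (hf : ∀ j, (chi K ρ ∅ * f j) ∈ US K ρ D)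
    (hD : S.card * D < fr ρ)
    (hz : ∀ y, InC ρ (bits2 y) → y ≠ basePt ρ → ∃ j ∈ S, f j y = 0) :
    ∃ j ∈ S, f j (basePt ρ) = 0 := by
  classical
  have h1 := sgn_sum hD (US_prodf ρ S f hf)
  rw [sum_eq_single (basePt ρ)] at h1
  · have h2 := (mul_eq_zero.1 h1).resolve_left (sgn_ne ρ _)
    rw [Pi.mul_apply, chi_one (basePt_in ρ), one_mul, Finset.prod_apply] at h2
    exact prod_eq_zero_iff.1 h2
  · intro y _ hy
    by_cases hC : InC ρ (bits2 y)
    · obtain ⟨j, hj, hj0⟩ := hz y hC hy
      rw [Pi.mul_apply, Finset.prod_apply, prod_eq_zero hj hj0, mul_zero, mul_zero]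
    · rw [Pi.mul_apply, chi_zero hC, zero_mul, mul_zero]
  · intro h
    exact absurd (mem_univ _) h

end functional

/-- the average of `2 ^ (-fr)` -/
theorem Ex_half (n : ℕ) (p : ℝ) : Ex (wq p) (fun ρ : Restr (Fin n) => (1 / 2 : ℝ) ^ fr ρ) =
    (1 - p / 2) ^ n := by
  unfold Ex
  have h1 : ∀ ρ : Restr (Fin n), (∏ i, wq p (ρ i)) * (1 / 2 : ℝ) ^ fr ρ =
      ∏ i, (wq p (ρ i) * (if ρ i = none then (1 : ℝ) / 2 else 1)) := by
    intro ρ
    rw [prod_mul_distrib]
    congr 1
    unfold fr
    rw [← prod_const, prod_filter]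
  rw [sum_congr rfl fun ρ _ => h1 ρ,
    sum_prod_restr (fun _ o => wq p o * (if o = none then (1 : ℝ) / 2 else 1))]
  have h4 : ∑ o : Option Bool, wq p o * (if o = none then (1 : ℝ) / 2 else 1) = 1 - p / 2 := by
    rw [Fintype.sum_option, Fintype.sum_bool]
    simp [wq]
    ring
  rw [prod_congr rfl fun i _ => h4, prod_const, card_univ, Fintype.card_fin]

section main
variable {n k : ℕ} {L : Type} [Fintype L] [DecidableEq L]

/-- change the letters at the places of `W` -/
def mix (π : Fin n → Equiv.Perm L) (W : Finset (Fin n)) (x : Fin n → L) : Fin n → L :=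
  fun i => if i ∈ W then π i (x i) else x i

/-- the point `u` -/
def back (π : Fin n → Equiv.Perm L) (ρ : Restr (Fin n)) : (Fin n → L) ≃ (Fin n → L) :=
  Equiv.piCongrRight fun i => if ρ i = some true then (π i).symm else Equiv.refl L

/-- the two values -/
def two (π : Fin n → Equiv.Perm L) (u : Fin n → L) (i : Fin n) (b : Bool) : L :=
  if b = true then π i (u i) else u i

theorem word (π : Fin n → Equiv.Perm L) (ρ : Restr (Fin n)) (x : Fin n → L) (y : Fin n → ZMod 2)
    (hy : InC ρ (bits2 y)) :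
    (fun i => two π (back π ρ x) i (bits2 y i)) =
      mix π (univ.filter fun i => y i ≠ basePt ρ i) x := by
  funext i
  unfold mix two back
  simp only [Equiv.piCongrRight_apply, Pi.map_apply, mem_filter, mem_univ, true_and]
  cases hi : ρ i with
  | none =>
    have e1 : basePt ρ i = 0 := by
      unfold basePt
      rw [hi]
      simp
    rw [e1]
    by_cases h : y i = 1
    · have h2 : bits2 y i = true := by
        unfold bits2
        simp [h]
      simp [h2, h]
    · have h0 : y i = 0 := (zmod2_cases (y i)).resolve_right h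
      have h2 : bits2 y i = false := by
        unfold bits2
        simp [h]
      simp [h2, h0]
  | some b =>
    have h2 := hy i b hi
    have e1 : y i = basePt ρ i := by
      unfold basePt
      rw [hi]
      cases b with
      | true =>
        unfold bits2 at h2
        rw [if_pos rfl]
        exact of_decide_eq_true h2
      | false =>
        unfold bits2 at h2
        rw [if_neg (by decide)]
        exact (zmod2_cases (y i)).resolve_right (of_decide_eq_false h2)
    rw [if_neg (not_not.2 e1), h2]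
    cases b <;> simp

/-- Sets without patterns which are supports of polynomials in circuits. -/
theorem poly_main {K : Type} [Field K] {w ℓ d t T q : ℕ} (hℓ : 1 ≤ ℓ) (hw : 1 ≤ w) (ht : 1 ≤ t)
    (π : Fin k → Fin n → Equiv.Perm L) (A : Finset (Fin n → L))
    (hA : ∀ (x : Fin n → L) (W : Finset (Fin n)), (∀ j, mix (π j) W x ∈ A) → W = ∅)
    (C : Fin T → Circuit w L n) (o : ∀ i, (C i).Node)
    (hs : ∀ i, n + Nat.card (C i).Node ≤ 2 ^ ℓ) (hd : ∀ i v, (C i).depth v ≤ d)
    (P : MvPolynomial (Fin T) K) (hP : P.totalDegree ≤ q)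
    (hval : ∀ x, x ∈ A ↔
      MvPolynomial.eval (fun i => if (C i).val (o i) x = true then (1 : K) else 0) P ≠ 0) :
    (A.card : ℝ) ≤ (Fintype.card L : ℝ) ^ n * (2 ^ (k * (q * ((d + 1) * t + ℓ))) *
      (1 - 1 / (((2 ^ (d + 1 + 9) * (w * ℓ)) ^ (d + 1) : ℕ) : ℝ) / 2) ^ n +
        k * T * (1 / 2) ^ (2 * t + (d + 1) + 1)) := by
  classical
  -- the Boolean circuits
  have hbp : ∀ (j : Fin k) (u : Fin n → L) (i : Fin T), _ := fun j u i =>
    bad_prob (t := t) ((C i).sub hw (two (π j) u)) (sub_leak _ _ _) hℓ hw ht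
      (by rw [sub_card]; exact hs i) (sub_depth (C i) hw (two (π j) u) (hd i))
      (subOut (C i) hw (two (π j) u) (o i))
  choose Q hQ1 hQ2 using hbp
  obtain ⟨p, hp⟩ : ∃ p : ℝ, p = 1 / (((2 ^ (d + 1 + 9) * (w * ℓ)) ^ (d + 1) : ℕ) : ℝ) := ⟨_, rfl⟩
  have hK1 : (1 : ℝ) ≤ (((2 ^ (d + 1 + 9) * (w * ℓ)) ^ (d + 1) : ℕ) : ℝ) := by
    have : 0 < w * ℓ := Nat.mul_pos hw hℓ
    exact_mod_cast Nat.one_le_iff_ne_zero.2 (by positivity)
  have hp0 : 0 ≤ p := by rw [hp]; positivity
  have hp1 : p ≤ 1 := by
    rw [hp, div_le_one (by linarith)]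
    exact hK1
  rw [← hp]
  obtain ⟨D, hD⟩ : ∃ D : ℕ, D = q * ((d + 1) * t + ℓ) := ⟨_, rfl⟩
  rw [← hD]
  obtain ⟨bad, hbad⟩ : ∃ bad : Fin k → Fin T → (Fin n → L) → Restr (Fin n) → ℝ,
      ∀ j i u ρ, bad j i u ρ = if ¬ Dt (Q j u i) ((d + 1) * t) ρ then (1 : ℝ) else 0 :=
    ⟨fun j i u ρ => if ¬ Dt (Q j u i) ((d + 1) * t) ρ then (1 : ℝ) else 0, fun _ _ _ _ => rfl⟩
  have hbad0 : ∀ j i u ρ, 0 ≤ bad j i u ρ := by
    intro j i u ρ
    rw [hbad]
    split_ifs <;> norm_num
  -- the pointwise estimate
  have hpt : ∀ (ρ : Restr (Fin n)) (x : Fin n → L), x ∈ A →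
      (1 : ℝ) ≤ 2 ^ (k * D) * (1 / 2) ^ fr ρ + ∑ j, ∑ i, bad j i (back (π j) ρ x) ρ := by
    intro ρ x hx
    by_cases hall : ∀ j i, Dt (Q j (back (π j) ρ x) i) ((d + 1) * t) ρ
    · have hfr : fr ρ ≤ k * D := by
        by_contra hcon
        push Not at hcon
        let f : Fin k → (Fin n → ZMod 2) → K := fun j y =>
          pv P (fun i => ((C i).sub hw (two (π j) (back (π j) ρ x))).val
            (subOut (C i) hw (two (π j) (back (π j) ρ x)) (o i))) (bits2 y)
        have hf : ∀ j, (chi K ρ ∅ * f j) ∈ US K ρ D := by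
          intro j
          rw [hD]
          refine US_poly ρ P hP _ fun i => ?_
          have h1 := US_dt ρ (hQ1 j (back (π j) ρ x) i) (hall j i) 0 (chi K ρ ∅)
            (chi_mem ρ (empty_subset _) (by simp)) (by
              intro y hy
              by_contra hcon
              exact hy (chi_zero hcon))
          rwa [zero_add] at h1
        have hfv : ∀ j y, InC ρ (bits2 y) → (f j y ≠ 0 ↔
            mix (π j) (univ.filter fun i => y i ≠ basePt ρ i) x ∈ A) := by
          intro j y hy
          rw [hval, ← word (π j) ρ x y hy]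
          rfl
        obtain ⟨j, -, hj⟩ := point univ f hf (by rwa [card_univ, Fintype.card_fin]) (by
          intro y hy hne
          by_contra hcon2
          push Not at hcon2
          have h2 := hA x (univ.filter fun i => y i ≠ basePt ρ i) fun j =>
            (hfv j y hy).1 (hcon2 j (mem_univ _))
          apply hne
          funext i
          by_contra h3
          have : i ∈ (univ.filter fun i => y i ≠ basePt ρ i) := mem_filter.2 ⟨mem_univ _, h3⟩
          rw [h2] at this
          exact absurd this (notMem_empty _))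
        have h4 := (hfv j (basePt ρ) (basePt_in ρ)).2
        have e : mix (π j) (univ.filter fun i => basePt ρ i ≠ basePt ρ i) x = x := by
          funext i
          unfold mix
          rw [if_neg]
          simp
        rw [e] at h4
        exact h4 hx hj
      have h1 : (1 : ℝ) ≤ 2 ^ (k * D) * (1 / 2) ^ fr ρ := by
        calc (1 : ℝ) = 2 ^ (k * D) * (1 / 2) ^ (k * D) := by rw [← mul_pow]; norm_num
          _ ≤ _ := mul_le_mul_of_nonneg_left
            (pow_le_pow_of_le_one (by norm_num) (by norm_num) hfr) (by positivity)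
      have h2 : (0 : ℝ) ≤ ∑ j, ∑ i, bad j i (back (π j) ρ x) ρ :=
        sum_nonneg fun j _ => sum_nonneg fun i _ => hbad0 _ _ _ _
      linarith
    · push Not at hall
      obtain ⟨j, i, hji⟩ := hall
      have h1 : (1 : ℝ) ≤ ∑ i, bad j i (back (π j) ρ x) ρ := by
        have := single_le_sum (f := fun i => bad j i (back (π j) ρ x) ρ)
          (fun i _ => hbad0 _ _ _ _) (mem_univ i)
        refine le_trans (le_of_eq ?_) this
        show 1 = bad j i (back (π j) ρ x) ρ
        rw [hbad, if_pos hji]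
      have h2 := single_le_sum (f := fun j => ∑ i, bad j i (back (π j) ρ x) ρ)
          (fun j _ => sum_nonneg fun i _ => hbad0 _ _ _ _) (mem_univ j)
      have h3 : (0 : ℝ) ≤ 2 ^ (k * D) * (1 / 2) ^ fr ρ := by positivity
      have h2' : ∑ i, bad j i (back (π j) ρ x) ρ ≤ ∑ j, ∑ i, bad j i (back (π j) ρ x) ρ := h2
      linarith
  have hsum : ∀ ρ : Restr (Fin n), (A.card : ℝ) ≤ A.card * (2 ^ (k * D) * (1 / 2) ^ fr ρ) +
      ∑ j, ∑ i, ∑ u, bad j i u ρ := by
    intro ρ
    have h1 := sum_le_sum fun x (hx : x ∈ A) => hpt ρ x hx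
    rw [sum_const, nsmul_eq_mul, mul_one, sum_add_distrib, sum_const, nsmul_eq_mul] at h1
    refine h1.trans (add_le_add le_rfl ?_)
    calc ∑ x ∈ A, ∑ j, ∑ i, bad j i (back (π j) ρ x) ρ ≤
        ∑ x, ∑ j, ∑ i, bad j i (back (π j) ρ x) ρ :=
          sum_le_sum_of_subset_of_nonneg (subset_univ _) fun x _ _ =>
            sum_nonneg fun j _ => sum_nonneg fun i _ => hbad0 _ _ _ _
      _ = ∑ j, ∑ i, ∑ x, bad j i (back (π j) ρ x) ρ := by
          rw [sum_comm]
          apply sum_congr rfl
          intro j _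
          rw [sum_comm]
      _ = _ := by
          apply sum_congr rfl
          intro j _
          apply sum_congr rfl
          intro i _
          exact Equiv.sum_comp (back (π j) ρ) fun u => bad j i u ρ
  have hEx := Ex_mono (wq_nonneg hp0 hp1) hsum
  rw [Ex_const (wq_sum p), Ex_add, Ex_smul, Ex_smul, Ex_half, Ex_sum] at hEx
  have hb : ∀ j : Fin k, Ex (wq p) (fun ρ : Restr (Fin n) => ∑ i, ∑ u, bad j i u ρ) ≤
      T * ((Fintype.card L : ℝ) ^ n * (1 / 2) ^ (2 * t + (d + 1) + 1)) := by
    intro j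
    rw [Ex_sum]
    have h1 : ∀ i ∈ (univ : Finset (Fin T)), Ex (wq p) (fun ρ : Restr (Fin n) =>
        ∑ u, bad j i u ρ) ≤ (Fintype.card L : ℝ) ^ n * (1 / 2) ^ (2 * t + (d + 1) + 1) := by
      intro i _
      rw [Ex_sum]
      have h2 : ∀ u ∈ (univ : Finset (Fin n → L)), Ex (wq p) (fun ρ : Restr (Fin n) =>
          bad j i u ρ) ≤ (1 / 2) ^ (2 * t + (d + 1) + 1) := by
        intro u _
        have := hQ2 j u i
        rw [← hp] at this
        refine le_trans (le_of_eq ?_) this
        congr 1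
        funext ρ
        exact hbad j i u ρ
      refine (sum_le_sum h2).trans (le_of_eq ?_)
      rw [sum_const, card_univ, Fintype.card_pi, prod_const, card_univ, Fintype.card_fin,
        nsmul_eq_mul]
      push_cast
      rfl
    refine (sum_le_sum h1).trans (le_of_eq ?_)
    rw [sum_const, card_univ, Fintype.card_fin, nsmul_eq_mul]
  have hb' := sum_le_sum fun j (_ : j ∈ (univ : Finset (Fin k))) => hb j
  rw [sum_const, card_univ, Fintype.card_fin, nsmul_eq_mul] at hb'
  have hcA : (A.card : ℝ) ≤ (Fintype.card L : ℝ) ^ n := by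
    have := card_le_univ A
    rw [Fintype.card_pi, prod_const, card_univ, Fintype.card_fin] at this
    exact_mod_cast this
  have hpn : 0 ≤ (1 - p / 2) ^ n := pow_nonneg (by linarith) _
  have h5 : (A.card : ℝ) * (2 ^ (k * D) * (1 - p / 2) ^ n) ≤
      (Fintype.card L : ℝ) ^ n * (2 ^ (k * D) * (1 - p / 2) ^ n) :=
    mul_le_mul_of_nonneg_right hcA (by positivity)
  have e : (Fintype.card L : ℝ) ^ n * (2 ^ (k * D) * (1 - p / 2) ^ n +
      k * T * (1 / 2) ^ (2 * t + (d + 1) + 1)) =
      (Fintype.card L : ℝ) ^ n * (2 ^ (k * D) * (1 - p / 2) ^ n) +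
      k * (T * ((Fintype.card L : ℝ) ^ n * (1 / 2) ^ (2 * t + (d + 1) + 1))) := by ring
  rw [e]
  linarith

/-- the numerical form -/
theorem poly_bound {K : Type} [Field K] {w ℓ d T q : ℕ} (hℓ : 1 ≤ ℓ) (hw : 1 ≤ w)
    (π : Fin k → Fin n → Equiv.Perm L) (A : Finset (Fin n → L))
    (hA : ∀ (x : Fin n → L) (W : Finset (Fin n)), (∀ j, mix (π j) W x ∈ A) → W = ∅)
    (C : Fin T → Circuit w L n) (o : ∀ i, (C i).Node)
    (hs : ∀ i, n + Nat.card (C i).Node ≤ 2 ^ ℓ) (hd : ∀ i v, (C i).depth v ≤ d)
    (P : MvPolynomial (Fin T) K) (hP : P.totalDegree ≤ q)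
    (hval : ∀ x, x ∈ A ↔
      MvPolynomial.eval (fun i => if (C i).val (o i) x = true then (1 : K) else 0) P ≠ 0) :
    (A.card : ℝ) ≤ 4 * (4 ^ (k * q * ℓ) + k * T) * (Fintype.card L : ℝ) ^ n *
      (2 : ℝ) ^ (-((n : ℝ) / (2 * (k * q * (d + 1) + 1) *
        (2 ^ (d + 10) * (w * ℓ)) ^ (d + 1)))) := by
  classical
  set N := (2 ^ (d + 1 + 9) * (w * ℓ)) ^ (d + 1) with hN
  have hN1 : 1 ≤ N := by
    have : 0 < w * ℓ := Nat.mul_pos hw hℓ
    exact Nat.one_le_iff_ne_zero.2 (by positivity)
  rcases Nat.eq_zero_or_pos (Fintype.card L ^ n) with h0 | hpos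
  · have : A.card = 0 := by
      have := card_le_univ A
      rw [Fintype.card_pi, prod_const, card_univ, Fintype.card_fin, h0] at this
      omega
    rw [this, Nat.cast_zero]
    positivity
  have hpos' : (0 : ℝ) < (Fintype.card L : ℝ) ^ n := by exact_mod_cast hpos
  have hcA : (A.card : ℝ) ≤ (Fintype.card L : ℝ) ^ n := by
    have := card_le_univ A
    rw [Fintype.card_pi, prod_const, card_univ, Fintype.card_fin] at this
    exact_mod_cast this
  have h4 : (0 : ℝ) < 4 ^ n := by positivity
  have key := lines_num n (d + 1) (k * T) (k * q) ℓ N hN1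
    (4 ^ n * (A.card / (Fintype.card L : ℝ) ^ n))
    (by
      have : (A.card : ℝ) / (Fintype.card L : ℝ) ^ n ≤ 1 := by
        rw [div_le_one hpos']
        exact hcA
      nlinarith)
    (by
      intro t ht
      have h := poly_main (K := K) hℓ hw ht π A hA C o hs hd P hP hval
      rw [← hN] at h
      refine mul_le_mul_of_nonneg_left ?_ h4.le
      rw [div_le_iff₀ hpos', mul_comm]
      refine h.trans (mul_le_mul_of_nonneg_left ?_ hpos'.le)
      apply add_le_add
      · apply mul_le_mul
        · have e : (2 : ℝ) ^ (k * (q * ((d + 1) * t + ℓ))) ≤ 4 ^ (k * (q * ((d + 1) * t + ℓ))) :=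
            pow_le_pow_left₀ (by norm_num) (by norm_num) _
          refine e.trans (le_of_eq ?_)
          congr 1
          ring
        · apply pow_le_pow_left₀
          · have hN' : (1 : ℝ) ≤ N := by exact_mod_cast hN1
            have : 1 / (N : ℝ) ≤ 1 := by rw [div_le_one (by linarith)]; exact hN'
            linarith
          · have : 0 ≤ 1 / (N : ℝ) := by positivity
            linarith
        · apply pow_nonneg
          have hN' : (1 : ℝ) ≤ N := by exact_mod_cast hN1
          have : 1 / (N : ℝ) ≤ 1 := by rw [div_le_one (by linarith)]; exact hN'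
          linarith
        · positivity
      · push_cast
        exact le_rfl)
  have e1 : (A.card : ℝ) = (Fintype.card L : ℝ) ^ n * (4 ^ n * (A.card / (Fintype.card L : ℝ) ^ n)) /
      4 ^ n := by
    field_simp
  rw [e1, div_le_iff₀ h4]
  refine (mul_le_mul_of_nonneg_left key hpos'.le).trans (le_of_eq ?_)
  rw [hN]
  push_cast
  rw [show d + 1 + 9 = d + 10 by ring, pow_succ (4 : ℝ) n]
  ring

end main

end Pool.Agent.N381.AC
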