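import Pool.Agent.N381.AC.Circ
import Pool.Agent.Y347.CO.Final4

set_option autoImplicit false

/-!
# Relative density inside sets of words decided by circuits of constant depth
-/

namespace Pool.Agent.N381.AC

open Finset Function
open Pool.Agent.Y347.CO (KK sens sum_sens_le posBlock posBlock_card)

section swap
variable {n : ℕ} {L : Type}

/-- replace the letters at the places of `J` -/
def rep (J : Finset (Fin n)) (x y : Fin n → L) : Fin n → L := fun i => if i ∈ J then y i else x i

/-- exchange the letters at the places of `J` -/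
def swp (J : Finset (Fin n)) (z : (Fin n → L) × (Fin n → L)) : (Fin n → L) × (Fin n → L) :=
  (rep J z.1 z.2, rep J z.2 z.1)

theorem rep_rep (J : Finset (Fin n)) (x y : Fin n → L) : rep J (rep J x y) (rep J y x) = x := by
  funext i
  by_cases h : i ∈ J <;> simp [rep, h]

theorem swp_swp (J : Finset (Fin n)) : Involutive (swp (L := L) J) := by
  rintro ⟨x, y⟩
  exact Prod.ext (rep_rep J x y) (rep_rep J y x)

variable [Fintype L] [DecidableEq L]

/-- the number of pairs for which the change at `i` leaves `F` -/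
def ch (F : Finset (Fin n → L)) (i : Fin n) : ℕ :=
  (univ.filter fun z : (Fin n → L) × (Fin n → L) => z.1 ∈ F ∧ update z.1 i (z.2 i) ∉ F).card

/-- telescoping -/
theorem leave_le (F : Finset (Fin n → L)) (J : Finset (Fin n)) :
    (univ.filter fun z : (Fin n → L) × (Fin n → L) => z.1 ∈ F ∧ rep J z.1 z.2 ∉ F).card ≤
      ∑ i ∈ J, ch F i := by
  classical
  induction J using Finset.induction_on with
  | empty =>
    rw [sum_empty, Nat.le_zero, card_eq_zero, filter_eq_empty_iff]
    rintro ⟨x, y⟩ - ⟨h1, h2⟩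
    apply h2
    have e : rep ∅ x y = x := by
      funext i
      simp [rep]
    show rep ∅ x y ∈ F
    rw [e]
    exact h1
  | insert j J hj ih =>
    rw [sum_insert hj]
    have h1 : (univ.filter fun z : (Fin n → L) × (Fin n → L) =>
        z.1 ∈ F ∧ rep (insert j J) z.1 z.2 ∉ F) ⊆
        (univ.filter fun z : (Fin n → L) × (Fin n → L) => z.1 ∈ F ∧ rep J z.1 z.2 ∉ F) ∪
        ((univ.filter fun z : (Fin n → L) × (Fin n → L) =>
          z.1 ∈ F ∧ update z.1 j (z.2 j) ∉ F).image (swp J)) := by
      rintro ⟨x, y⟩ hz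
      rw [mem_filter] at hz
      obtain ⟨-, h1, h2⟩ := hz
      rw [mem_union]
      by_cases h : rep J x y ∈ F
      · right
        rw [mem_image]
        refine ⟨swp J (x, y), mem_filter.2 ⟨mem_univ _, h, ?_⟩, swp_swp J _⟩
        have e : update (rep J x y) j (rep J y x j) = rep (insert j J) x y := by
          funext i
          rcases eq_or_ne i j with rfl | hij
          · simp [rep, hj]
          · simp [rep, hij]
        show update (rep J x y) j (rep J y x j) ∉ F
        rw [e]
        exact h2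
      · left
        exact mem_filter.2 ⟨mem_univ _, h1, h⟩
    refine (card_le_card h1).trans ((card_union_le _ _).trans ?_)
    have h2 : ((univ.filter fun z : (Fin n → L) × (Fin n → L) =>
          z.1 ∈ F ∧ update z.1 j (z.2 j) ∉ F).image (swp J)).card ≤ ch F j := card_image_le
    omega

theorem card_fst (S : Finset (Fin n → L)) :
    (univ.filter fun z : (Fin n → L) × (Fin n → L) => z.1 ∈ S).card =
      Fintype.card L ^ n * S.card := by
  have e : (univ.filter fun z : (Fin n → L) × (Fin n → L) => z.1 ∈ S) = S ×ˢ univ := by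
    ext z
    simp
  rw [e, card_product, card_univ, Fintype.card_pi, prod_const, card_univ, Fintype.card_fin,
    mul_comm]

/-- comparison of `A ∩ F` with the words of `F` which lie in `A` after a change in `J` -/
theorem inter_le (F A : Finset (Fin n → L)) (J : Finset (Fin n)) :
    Fintype.card L ^ n * (A ∩ F).card ≤
      (univ.filter fun z : (Fin n → L) × (Fin n → L) => z.1 ∈ F ∧ rep J z.1 z.2 ∈ A).card +
        ∑ i ∈ J, ch F i := by
  classical
  rw [← card_fst]
  have h1 : (univ.filter fun z : (Fin n → L) × (Fin n → L) => z.1 ∈ A ∩ F) ⊆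
      (univ.filter fun z : (Fin n → L) × (Fin n → L) => z.1 ∈ F ∧ rep J z.1 z.2 ∈ A).image
        (swp J) ∪
      (univ.filter fun z : (Fin n → L) × (Fin n → L) => z.1 ∈ F ∧ rep J z.1 z.2 ∉ F) := by
    rintro ⟨x, y⟩ hz
    rw [mem_filter] at hz
    obtain ⟨-, hz⟩ := hz
    have hz' := mem_inter.1 hz
    rw [mem_union]
    by_cases h : rep J x y ∈ F
    · left
      rw [mem_image]
      refine ⟨swp J (x, y), mem_filter.2 ⟨mem_univ _, h, ?_⟩, swp_swp J _⟩
      show rep J (rep J x y) (rep J y x) ∈ A
      rw [rep_rep]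
      exact hz'.1
    · right
      exact mem_filter.2 ⟨mem_univ _, hz'.2, h⟩
  refine (card_le_card h1).trans ((card_union_le _ _).trans ?_)
  exact add_le_add card_image_le (leave_le F J)

end swap

section sensitivity
variable {n : ℕ} {L : Type}

/-- the two letters -/
def pick (z : (Fin n → L) × (Fin n → L)) (i : Fin n) (b : Bool) : L :=
  if b = true then z.2 i else z.1 i

theorem pick_eq (z : (Fin n → L) × (Fin n → L)) (b : Fin n → Bool) :
    (fun i => pick z i (b i)) = rep (univ.filter fun i => b i = true) z.1 z.2 := by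
  funext i
  cases h : b i <;> simp [pick, rep, h]

theorem pick_flip (z : (Fin n → L) × (Fin n → L)) (b : Fin n → Bool) (i : Fin n) :
    (fun j => pick z j (update b i (!(b i)) j)) =
      update (rep (univ.filter fun i => b i = true) z.1 z.2) i
        (rep (univ.filter fun i => b i = true) z.2 z.1 i) := by
  funext j
  rcases eq_or_ne j i with rfl | hij
  · cases h : b j <;> simp [pick, rep, h]
  · cases h : b j <;> simp [pick, rep, h, hij]

variable [Fintype L] [DecidableEq L]

/-- the total number of changes in the directions of `D` -/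
theorem ch_sum_le {w ℓ d : ℕ} (C : Circuit w L n) (hℓ : 1 ≤ ℓ) (hw : 1 ≤ w)
    (hs : n + Nat.card C.Node ≤ 2 ^ ℓ) (hd : ∀ v, C.depth v ≤ d) (o : C.Node)
    (F : Finset (Fin n → L)) (hF : ∀ x, x ∈ F ↔ C.val o x = true) (D : Finset (Fin n))
    {κ : ℝ} (hκ : 0 ≤ κ) :
    ∑ i ∈ D, (ch F i : ℝ) ≤ κ * ((Fintype.card L : ℝ) ^ n * F.card) +
      D.card * ((Fintype.card L : ℝ) ^ n * (Fintype.card L : ℝ) ^ n *
        (2 : ℝ) ^ (2 * ℓ + 4 - κ / ((d + 1 : ℕ) * KK (d + 1) w ℓ))) := by
  classical
  obtain ⟨G, hG⟩ : ∃ G : (Fin n → L) × (Fin n → L) → Finset (Fin n → Bool),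
      ∀ z, G z = univ.filter fun b => C.val o (fun i => pick z i (b i)) = true := ⟨_, fun _ => rfl⟩
  have hz : ∀ z : (Fin n → L) × (Fin n → L),
      ∑ b ∈ G z, (((sens ((C.sub hw (pick z)).val (subOut C hw (pick z) o)) b) ∩ D).card : ℝ) ≤
        κ * (G z).card + D.card * (2 ^ n *
          (2 : ℝ) ^ (2 * ℓ + 4 - κ / ((d + 1 : ℕ) * KK (d + 1) w ℓ))) := fun z =>
    sum_sens_le Y220.CO.done (C.sub hw (pick z)) (sub_leak _ _ _) hℓ hw (Nat.succ_pos d)
      (by rw [sub_card]; exact hs) (sub_depth C hw (pick z) hd) (subOut C hw (pick z) o) D (G z) hκ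
  have hsum := sum_le_sum fun z (_ : z ∈ (univ : Finset ((Fin n → L) × (Fin n → L)))) => hz z
  rw [sum_add_distrib, ← mul_sum, sum_const, nsmul_eq_mul, card_univ, Fintype.card_prod,
    Fintype.card_pi, prod_const, card_univ, Fintype.card_fin] at hsum
  -- the sizes
  have hcard : ∑ z : (Fin n → L) × (Fin n → L), ((G z).card : ℝ) =
      2 ^ n * ((Fintype.card L : ℝ) ^ n * F.card) := by
    have h1 : ∑ z : (Fin n → L) × (Fin n → L), (G z).card =
        2 ^ n * (Fintype.card L ^ n * F.card) := by
      have h2 : ∀ z : (Fin n → L) × (Fin n → L), (G z).card =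
          ∑ b : Fin n → Bool, if (swp (univ.filter fun i => b i = true) z).1 ∈ F then 1 else 0 := by
        intro z
        rw [hG, card_filter]
        apply sum_congr rfl
        intro b _
        have h3 : C.val o (fun i => pick z i (b i)) = true ↔
            (swp (univ.filter fun i => b i = true) z).1 ∈ F := by
          rw [hF, pick_eq]
          rfl
        by_cases h4 : C.val o (fun i => pick z i (b i)) = true
        · rw [if_pos h4, if_pos (h3.1 h4)]
        · rw [if_neg h4, if_neg fun h => h4 (h3.2 h)]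
      rw [sum_congr rfl fun z _ => h2 z, sum_comm]
      have h5 : ∀ b ∈ (univ : Finset (Fin n → Bool)),
          ∑ z : (Fin n → L) × (Fin n → L),
            (if (swp (univ.filter fun i => b i = true) z).1 ∈ F then 1 else 0) =
          Fintype.card L ^ n * F.card := by
        intro b _
        rw [← card_fst, card_filter]
        exact Equiv.sum_comp (swp_swp (univ.filter fun i => b i = true)).toPerm
          (fun z : (Fin n → L) × (Fin n → L) => if z.1 ∈ F then 1 else 0)
      rw [sum_congr rfl h5, sum_const, card_univ, Fintype.card_pi, prod_const, card_univ,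
        Fintype.card_fin, Fintype.card_bool, smul_eq_mul]
    exact_mod_cast h1
  have hsens : ∑ z : (Fin n → L) × (Fin n → L), ∑ b ∈ G z,
      (((sens ((C.sub hw (pick z)).val (subOut C hw (pick z) o)) b) ∩ D).card : ℝ) =
      2 ^ n * ∑ i ∈ D, (ch F i : ℝ) := by
    have h1 : ∑ z : (Fin n → L) × (Fin n → L), ∑ b ∈ G z,
        ((sens ((C.sub hw (pick z)).val (subOut C hw (pick z) o)) b) ∩ D).card =
        2 ^ n * ∑ i ∈ D, ch F i := by
      obtain ⟨g, hg⟩ : ∃ g : (Fin n → L) × (Fin n → L) → ℕ, ∀ z, g z =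
          ∑ i ∈ D, if z.1 ∈ F ∧ update z.1 i (z.2 i) ∉ F then 1 else 0 := ⟨_, fun _ => rfl⟩
      have hg1 : ∑ z, g z = ∑ i ∈ D, ch F i := by
        rw [sum_congr rfl fun z _ => hg z, sum_comm]
        apply sum_congr rfl
        intro i _
        rw [ch, card_filter]
      have h2 : ∀ z : (Fin n → L) × (Fin n → L), ∑ b ∈ G z,
          ((sens ((C.sub hw (pick z)).val (subOut C hw (pick z) o)) b) ∩ D).card =
          ∑ b : Fin n → Bool, g (swp (univ.filter fun i => b i = true) z) := by
        intro z
        rw [hG, sum_filter]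
        apply sum_congr rfl
        intro b _
        rw [hg]
        have h3 : C.val o (fun i => pick z i (b i)) = true ↔
            (swp (univ.filter fun i => b i = true) z).1 ∈ F := by
          rw [hF, pick_eq]
          rfl
        by_cases h4 : C.val o (fun i => pick z i (b i)) = true
        · rw [if_pos h4, ← card_filter, inter_comm]
          congr 1
          ext i
          rw [mem_inter, mem_filter]
          refine and_congr_right fun _ => ?_
          rw [sens, mem_filter]
          have h5 : (C.sub hw (pick z)).val (subOut C hw (pick z) o) b = true := h4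
          have h6 : (C.sub hw (pick z)).val (subOut C hw (pick z) o) (update b i (!(b i))) =
              C.val o (update (swp (univ.filter fun i => b i = true) z).1 i
                ((swp (univ.filter fun i => b i = true) z).2 i)) := by
            rw [sub_val, pick_flip]
            rfl
          rw [h5, h6]
          constructor
          · rintro ⟨-, h⟩
            exact ⟨h3.1 h4, fun hh => h ((hF _).1 hh)⟩
          · rintro ⟨-, h⟩
            exact ⟨mem_univ _, fun hh => h ((hF _).2 hh)⟩
        · rw [if_neg h4, sum_eq_zero]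
          intro i _
          rw [if_neg]
          rintro ⟨h, -⟩
          exact h4 (h3.2 h)
      rw [sum_congr rfl fun z _ => h2 z, sum_comm]
      have h5 : ∀ b ∈ (univ : Finset (Fin n → Bool)),
          ∑ z : (Fin n → L) × (Fin n → L), g (swp (univ.filter fun i => b i = true) z) =
          ∑ i ∈ D, ch F i := by
        intro b _
        rw [← hg1]
        exact Equiv.sum_comp (swp_swp (univ.filter fun i => b i = true)).toPerm g
      rw [sum_congr rfl h5, sum_const, card_univ, Fintype.card_pi, prod_const, card_univ,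
        Fintype.card_fin, Fintype.card_bool, smul_eq_mul]
    exact_mod_cast h1
  rw [hsens, hcard] at hsum
  have h2n : (0 : ℝ) < 2 ^ n := by positivity
  have e : κ * (2 ^ n * ((Fintype.card L : ℝ) ^ n * F.card)) +
      ((Fintype.card L ^ n * Fintype.card L ^ n : ℕ) : ℝ) * (D.card * (2 ^ n *
        (2 : ℝ) ^ (2 * ℓ + 4 - κ / ((d + 1 : ℕ) * KK (d + 1) w ℓ)))) =
      2 ^ n * (κ * ((Fintype.card L : ℝ) ^ n * F.card) +
      D.card * ((Fintype.card L : ℝ) ^ n * (Fintype.card L : ℝ) ^ n *
        (2 : ℝ) ^ (2 * ℓ + 4 - κ / ((d + 1 : ℕ) * KK (d + 1) w ℓ)))) := by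
    push_cast
    ring
  have hsum' := hsum.trans (le_of_eq e)
  exact le_of_mul_le_mul_left hsum' h2n

end sensitivity

section rel
variable {n m : ℕ} {L : Type} [Fintype L] [DecidableEq L] [AddCommGroup L]

/-- extension by zero -/
def ext (n : ℕ) {m : ℕ} (hm : 0 < m) (j : ℕ) (s : Fin m → L) : Fin n → L :=
  fun i => if (i : ℕ) / m = j then s ⟨(i : ℕ) % m, Nat.mod_lt _ hm⟩ else 0

/-- averages over the translations in a block -/
theorem slice_le (A : Finset (Fin n → L)) (hm : 0 < m) (j r : ℕ)
    (hA : ∀ z, (univ.filter fun t : Fin m → L => z + ext n hm j t ∈ A).card ≤ r)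
    (x : Fin n → L) :
    Fintype.card L ^ m * (univ.filter fun y => rep (posBlock n m j) x y ∈ A).card ≤
      r * Fintype.card L ^ n := by
  classical
  have h1 : ∀ t : Fin m → L, (univ.filter fun y => rep (posBlock n m j) x y ∈ A).card =
      ∑ y, if rep (posBlock n m j) x y + ext n hm j t ∈ A then 1 else 0 := by
    intro t
    rw [card_filter, ← Equiv.sum_comp (Equiv.addRight (ext n hm j t))]
    apply sum_congr rfl
    intro y _
    have e : rep (posBlock n m j) x ((Equiv.addRight (ext n hm j t)) y) =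
        rep (posBlock n m j) x y + ext n hm j t := by
      funext i
      by_cases h : (i : ℕ) / m = j
      · have h' : i ∈ posBlock n m j := mem_filter.2 ⟨mem_univ _, h⟩
        simp [rep, h']
      · have h' : i ∉ posBlock n m j := fun hh => h (mem_filter.1 hh).2
        simp [rep, h', ext, h]
    rw [e]
  have h2 : Fintype.card L ^ m * (univ.filter fun y => rep (posBlock n m j) x y ∈ A).card =
      ∑ y, (univ.filter fun t : Fin m → L =>
        rep (posBlock n m j) x y + ext n hm j t ∈ A).card := by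
    have h3 : ∑ _t : Fin m → L, (univ.filter fun y => rep (posBlock n m j) x y ∈ A).card =
        Fintype.card L ^ m * (univ.filter fun y => rep (posBlock n m j) x y ∈ A).card := by
      rw [sum_const, card_univ, Fintype.card_pi, prod_const, card_univ, Fintype.card_fin,
        smul_eq_mul]
    rw [← h3, sum_congr rfl fun t _ => h1 t, sum_comm]
    apply sum_congr rfl
    intro y _
    rw [card_filter]
  rw [h2]
  refine (sum_le_sum fun y _ => hA _).trans (le_of_eq ?_)
  rw [sum_const, card_univ, Fintype.card_pi, prod_const, card_univ, Fintype.card_fin, smul_eq_mul,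
    mul_comm]

/-- **relative density**: additive form -/
theorem rel_add {w ℓ d : ℕ} (C : Circuit w L n) (hℓ : 1 ≤ ℓ) (hw : 1 ≤ w)
    (hs : n + Nat.card C.Node ≤ 2 ^ ℓ) (hd : ∀ v, C.depth v ≤ d) (o : C.Node)
    (F : Finset (Fin n → L)) (hF : ∀ x, x ∈ F ↔ C.val o x = true) (A : Finset (Fin n → L))
    (hm : 0 < m) (r : ℕ)
    (hA : ∀ j < n / m, ∀ z, (univ.filter fun t : Fin m → L => z + ext n hm j t ∈ A).card ≤ r)
    {ε : ℝ} (hε : 0 < ε) :
    ((A ∩ F).card : ℝ) ≤ (r / (Fintype.card L : ℝ) ^ m + ε) * F.card +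
      m * ((Fintype.card L : ℝ) ^ n *
        (2 : ℝ) ^ (2 * ℓ + 4 - ε * (n / m : ℕ) / ((d + 1 : ℕ) * KK (d + 1) w ℓ))) := by
  classical
  have hq : 0 < Fintype.card L := Fintype.card_pos
  obtain ⟨q, hqdef⟩ : ∃ q : ℝ, q = (Fintype.card L : ℝ) := ⟨_, rfl⟩
  have hq0 : 0 < q := by rw [hqdef]; exact_mod_cast hq
  obtain ⟨E, hE⟩ : ∃ E : ℝ, E = (2 : ℝ) ^ (2 * ℓ + 4 - ε * (n / m : ℕ) /
      ((d + 1 : ℕ) * KK (d + 1) w ℓ)) := ⟨_, rfl⟩
  have hE0 : 0 < E := by rw [hE]; positivity
  have hm1 : (1 : ℝ) ≤ m := by exact_mod_cast hm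
  rcases Nat.eq_zero_or_pos (n / m) with h0 | hk
  · -- trivial bound
    have hE1 : 1 ≤ E := by
      rw [hE, h0]
      apply Real.one_le_rpow (by norm_num)
      simp only [Nat.cast_zero, mul_zero, zero_div, sub_zero]
      positivity
    have h1 : ((A ∩ F).card : ℝ) ≤ q ^ n := by
      have := card_le_univ (A ∩ F)
      rw [Fintype.card_pi, prod_const, card_univ, Fintype.card_fin] at this
      rw [hqdef]
      exact_mod_cast this
    have h2 : q ^ n ≤ m * (q ^ n * E) := by
      have h3 : (0 : ℝ) < q ^ n := by positivity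
      have h4 : q ^ n * 1 ≤ q ^ n * E := mul_le_mul_of_nonneg_left hE1 h3.le
      have h5 : 0 < q ^ n * E := by positivity
      nlinarith
    have h3 : 0 ≤ (r / (Fintype.card L : ℝ) ^ m + ε) * F.card := by positivity
    rw [← hE, ← hqdef]
    rw [← hqdef] at h3
    linarith
  -- blocks
  have hdisj : ∀ j ∈ range (n / m), ∀ j' ∈ range (n / m), j ≠ j' →
      Disjoint (posBlock n m j) (posBlock n m j') := by
    intro j _ j' _ hjj
    rw [disjoint_left]
    intro i hi hi'
    exact hjj ((mem_filter.1 hi).2.symm.trans (mem_filter.1 hi').2)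
  obtain ⟨D, hD⟩ : ∃ D : Finset (Fin n), D = (range (n / m)).biUnion (posBlock n m) := ⟨_, rfl⟩
  have hDc : (D.card : ℝ) ≤ (n / m : ℕ) * m := by
    have : D.card ≤ (n / m) * m := by
      rw [hD]
      refine card_biUnion_le.trans ((sum_le_sum fun j _ => posBlock_card hm j).trans ?_)
      rw [sum_const, card_range, smul_eq_mul]
    exact_mod_cast this
  have hsum := ch_sum_le C hℓ hw hs hd o F hF D (κ := ε * (n / m : ℕ)) (by positivity)
  rw [← hE, ← hqdef] at hsum
  have hsum2 : ∑ j ∈ range (n / m), ((∑ i ∈ posBlock n m j, ch F i : ℕ) : ℝ) =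
      ∑ i ∈ D, (ch F i : ℝ) := by
    rw [hD, sum_biUnion hdisj]
    push_cast
    rfl
  have hk' : (0 : ℝ) < (n / m : ℕ) := by exact_mod_cast hk
  obtain ⟨j, hj, hjb⟩ : ∃ j ∈ range (n / m), ((∑ i ∈ posBlock n m j, ch F i : ℕ) : ℝ) ≤
      ε * (q ^ n * F.card) + m * (q ^ n * q ^ n * E) := by
    by_contra hcon
    push Not at hcon
    have h1 := sum_lt_sum_of_nonempty (nonempty_range_iff.2 hk.ne') hcon
    rw [sum_const, card_range, nsmul_eq_mul, hsum2] at h1
    have h2 : (D.card : ℝ) * (q ^ n * q ^ n * E) ≤ (n / m : ℕ) * m * (q ^ n * q ^ n * E) :=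
      mul_le_mul_of_nonneg_right hDc (by positivity)
    have h3 := h1.trans_le (hsum.trans (add_le_add le_rfl h2))
    have e : ((n / m : ℕ) : ℝ) * (ε * (q ^ n * F.card) + m * (q ^ n * q ^ n * E)) =
      ε * (n / m : ℕ) * (q ^ n * F.card) + (n / m : ℕ) * m * (q ^ n * q ^ n * E) := by ring
    rw [e] at h3
    exact lt_irrefl _ h3
  have h1 := inter_le F A (posBlock n m j)
  have h2 : Fintype.card L ^ m * (univ.filter fun z : (Fin n → L) × (Fin n → L) =>
      z.1 ∈ F ∧ rep (posBlock n m j) z.1 z.2 ∈ A).card ≤ F.card * (r * Fintype.card L ^ n) := by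
    have h3 : (univ.filter fun z : (Fin n → L) × (Fin n → L) =>
        z.1 ∈ F ∧ rep (posBlock n m j) z.1 z.2 ∈ A).card =
        ∑ x ∈ F, (univ.filter fun y => rep (posBlock n m j) x y ∈ A).card := by
      rw [card_filter, Fintype.sum_prod_type, ← sum_filter_add_sum_filter_not univ fun x => x ∈ F]
      have h4 : ∑ x ∈ univ.filter (fun x => x ∉ F), ∑ y : Fin n → L,
          (if (x, y).1 ∈ F ∧ rep (posBlock n m j) (x, y).1 (x, y).2 ∈ A then 1 else 0) = 0 := by
        apply sum_eq_zero
        intro x hx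
        apply sum_eq_zero
        intro y _
        rw [if_neg]
        rintro ⟨h, -⟩
        exact (mem_filter.1 hx).2 h
      rw [h4, add_zero]
      have e : univ.filter (fun x => x ∈ F) = F := by
        ext x
        simp
      rw [e]
      apply sum_congr rfl
      intro x hx
      rw [card_filter]
      apply sum_congr rfl
      intro y _
      simp [hx]
    rw [h3, mul_sum, ← smul_eq_mul, ← sum_const]
    exact sum_le_sum fun x _ => slice_le A hm j r (hA j (mem_range.1 hj)) x
  have h1' : (q ^ n : ℝ) * (A ∩ F).card ≤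
      ((univ.filter fun z : (Fin n → L) × (Fin n → L) =>
        z.1 ∈ F ∧ rep (posBlock n m j) z.1 z.2 ∈ A).card : ℝ) +
      ((∑ i ∈ posBlock n m j, ch F i : ℕ) : ℝ) := by
    rw [hqdef]
    exact_mod_cast h1
  have h2' : q ^ m * ((univ.filter fun z : (Fin n → L) × (Fin n → L) =>
      z.1 ∈ F ∧ rep (posBlock n m j) z.1 z.2 ∈ A).card : ℝ) ≤ F.card * (r * q ^ n) := by
    rw [hqdef]
    exact_mod_cast h2
  rw [← hE, ← hqdef]
  have hqm : 0 < q ^ m := by positivity
  have hqn : 0 < q ^ n := by positivity
  have h5 : q ^ n * ((A ∩ F).card : ℝ) ≤ F.card * (r * q ^ n) / q ^ m +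
      (ε * (q ^ n * F.card) + m * (q ^ n * q ^ n * E)) := by
    have h6 : ((univ.filter fun z : (Fin n → L) × (Fin n → L) =>
      z.1 ∈ F ∧ rep (posBlock n m j) z.1 z.2 ∈ A).card : ℝ) ≤ F.card * (r * q ^ n) / q ^ m := by
      rw [le_div_iff₀ hqm]
      linarith
    linarith
  have e : F.card * (r * q ^ n) / q ^ m +
      (ε * (q ^ n * F.card) + m * (q ^ n * q ^ n * E)) =
      q ^ n * ((r / q ^ m + ε) * F.card + m * (q ^ n * E)) := by
    ring
  rw [e] at h5
  exact le_of_mul_le_mul_left h5 hqn

end rel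

end Pool.Agent.N381.AC
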